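import Pool.Agent.Helper52.KP.StM

/-!
# Project KP, module DIF
-/

set_option autoImplicit false

namespace Pool.Agent.Helper32.KP

open Pool.Agent.Helper52.KP MeasureTheory Filter
open scoped ContDiff ComplexOrder Topology

private theorem ev_cont {m : ℕ} (P : MvPolynomial (Fin m) ℂ) : Continuous fun z => ev P z :=
  MvPolynomial.continuous_eval P

private theorem sz_cont (C : Cone) : Continuous C.sz := by
  unfold Cone.sz
  exact continuous_finsetSum _ fun i _ => (ev_cont (C.X i)).norm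

private theorem sz_nonneg (C : Cone) (z : Fin C.m → ℂ) : 0 ≤ C.sz z :=
  Finset.sum_nonneg fun _ _ => norm_nonneg _

private theorem U_open (C : Cone) : IsOpen C.U := by
  have h : C.U = (fun z => ev C.Δ z) ⁻¹' {0}ᶜ := rfl
  rw [h]
  exact isOpen_compl_singleton.preimage (ev_cont C.Δ)

private theorem U_nonempty (C : Cone) (hC : Good C) : C.U.Nonempty := by
  by_contra h
  rw [Set.not_nonempty_iff_eq_empty] at h
  apply hC.Δ0
  apply MvPolynomial.funext
  intro z
  rw [map_zero]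
  by_contra h1
  have h2 : z ∈ C.U := h1
  rw [h] at h2
  exact h2

private theorem num_bd {c b : ℝ} (hc : 0 < c) {D : ℕ} (hD : 0 < D) {x : ℝ} (hx : 0 ≤ x) :
    b * x - (b ^ 2 / (4 * c) + c) ≤ c * x ^ (2 * D) := by
  have h1 : x ^ 2 - 1 ≤ x ^ (2 * D) := by
    rcases le_total 1 x with h | h
    · have := pow_le_pow_right₀ h (show 2 ≤ 2 * D by omega)
      linarith
    · have h2 : x ^ 2 ≤ 1 := pow_le_one₀ hx h
      have h3 : 0 ≤ x ^ (2 * D) := pow_nonneg hx _
      linarith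
  have h2 : b * x ≤ c * x ^ 2 + b ^ 2 / (4 * c) := by
    have h3 : 0 ≤ c * (x - b / (2 * c)) ^ 2 := by positivity
    have h4 : c * (x - b / (2 * c)) ^ 2 = c * x ^ 2 - b * x + b ^ 2 / (4 * c) := by
      field_simp
      ring
    linarith
  nlinarith

private theorem dom (hM : StMOM) (C : Cone) (hC : Good C) {c : ℝ} (hc : 0 < c) {D : ℕ} (hD : 0 < D)
    (q : ℕ) : IntegrableOn
      (fun z => C.sz z ^ q * Real.exp (-(c * C.sz z ^ (2 * D))) * ‖ev C.J z‖ ^ 2) C.U := by
  obtain ⟨a, b, ha, hab⟩ := hC.ubd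
  have h1 := (hM C hC).2.2.1 q
  have h2 := h1.const_mul (Real.exp (|b| ^ 2 / (4 * c) + c))
  refine Integrable.mono' h2 ?_ ?_
  · have hcont : Continuous fun z =>
        C.sz z ^ q * Real.exp (-(c * C.sz z ^ (2 * D))) * ‖ev C.J z‖ ^ 2 := by
      have h3 := sz_cont C
      have h4 := ev_cont C.J
      fun_prop
    exact hcont.aestronglyMeasurable
  · refine ae_restrict_of_forall_mem (U_open C).measurableSet fun z hz => ?_
    have hsz := sz_nonneg C z
    rw [Real.norm_of_nonneg (by positivity)]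
    have h3 : Real.exp (-(c * C.sz z ^ (2 * D))) ≤
        Real.exp (|b| ^ 2 / (4 * c) + c) * Real.exp (-C.u z) := by
      rw [← Real.exp_add]
      apply Real.exp_le_exp.2
      have h4 := num_bd (b := |b|) hc hD hsz
      have h5 := (hab z hz).2
      have h6 : b * C.sz z ≤ |b| * C.sz z := mul_le_mul_of_nonneg_right (le_abs_self b) hsz
      linarith
    calc C.sz z ^ q * Real.exp (-(c * C.sz z ^ (2 * D))) * ‖ev C.J z‖ ^ 2
        ≤ C.sz z ^ q * (Real.exp (|b| ^ 2 / (4 * c) + c) * Real.exp (-C.u z)) *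
          ‖ev C.J z‖ ^ 2 := by
          gcongr
      _ = Real.exp (|b| ^ 2 / (4 * c) + c) * (C.sz z ^ q * Real.exp (-C.u z) * ‖ev C.J z‖ ^ 2) := by
          ring

private theorem pow_mem (C : Cone) (hC : Good C) {f : MvPolynomial (Fin C.m) ℂ} (hf : f ∈ C.R 1)
    (D : ℕ) : f ^ D ∈ C.R D := by
  induction D with
  | zero =>
    rw [pow_zero]
    exact hC.one
  | succ k ih =>
    rw [pow_succ]
    exact hC.mul k 1 _ _ ih hf

private theorem lower (C : Cone) (hC : Good C) {D N : ℕ} (hD : 0 < D)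
    (s : Fin N → MvPolynomial (Fin C.m) ℂ) (hs : Submodule.span ℂ (Set.range s) = C.R D) :
    ∃ c : ℝ, 0 < c ∧ ∀ z, c * C.sz z ^ (2 * D) ≤ ∑ j, ‖ev (s j) z‖ ^ 2 := by
  have h1 : ∀ i, ∃ a : Fin N → ℂ, ∑ j, a j • s j = C.X i ^ D := by
    intro i
    have h2 : C.X i ^ D ∈ Submodule.span ℂ (Set.range s) := by
      rw [hs]
      exact pow_mem C hC (hC.XR i) D
    exact (Submodule.mem_span_range_iff_exists_fun ℂ).1 h2
  choose a ha using h1
  set A : ℝ := ∑ i, ∑ j, ‖a i j‖ with hA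
  have hA0 : 0 ≤ A := Finset.sum_nonneg fun _ _ => Finset.sum_nonneg fun _ _ => norm_nonneg _
  have hX : ∀ i z, ‖ev (C.X i) z‖ ^ D ≤ A * ∑ j, ‖ev (s j) z‖ := by
    intro i z
    have h2 : ev (C.X i) z ^ D = ∑ j, a i j * ev (s j) z := by
      have h3 := congrArg (fun P => MvPolynomial.eval z P) (ha i)
      simp only [map_sum, map_pow, MvPolynomial.smul_eval] at h3
      exact h3.symm
    rw [← norm_pow, h2]
    calc ‖∑ j, a i j * ev (s j) z‖ ≤ ∑ j, ‖a i j * ev (s j) z‖ := norm_sum_le _ _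
      _ = ∑ j, ‖a i j‖ * ‖ev (s j) z‖ := by simp only [norm_mul]
      _ ≤ ∑ j, A * ‖ev (s j) z‖ := by
          apply Finset.sum_le_sum
          intro j _
          apply mul_le_mul_of_nonneg_right _ (norm_nonneg _)
          calc ‖a i j‖ ≤ ∑ j, ‖a i j‖ :=
                Finset.single_le_sum (f := fun j => ‖a i j‖) (fun _ _ => norm_nonneg _)
                  (Finset.mem_univ j)
            _ ≤ A := Finset.single_le_sum (f := fun i => ∑ j, ‖a i j‖)
                  (fun _ _ => Finset.sum_nonneg fun _ _ => norm_nonneg _) (Finset.mem_univ i)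
      _ = A * ∑ j, ‖ev (s j) z‖ := by rw [Finset.mul_sum]
  obtain ⟨k, rfl⟩ : ∃ k, D = k + 1 := ⟨D - 1, by omega⟩
  have hsz : ∀ z, C.sz z ^ (k + 1) ≤ (C.nx : ℝ) ^ k * (C.nx * A * ∑ j, ‖ev (s j) z‖) := by
    intro z
    have h2 := pow_sum_le_card_mul_sum_pow (s := Finset.univ)
      (f := fun i => ‖ev (C.X i) z‖) (fun _ _ => norm_nonneg _) k
    rw [Finset.card_univ, Fintype.card_fin] at h2
    calc C.sz z ^ (k + 1) ≤ (C.nx : ℝ) ^ k * ∑ i, ‖ev (C.X i) z‖ ^ (k + 1) := h2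
      _ ≤ (C.nx : ℝ) ^ k * ∑ i : Fin C.nx, A * ∑ j, ‖ev (s j) z‖ := by
          gcongr with i _
          exact hX i z
      _ = (C.nx : ℝ) ^ k * (C.nx * A * ∑ j, ‖ev (s j) z‖) := by
          rw [Finset.sum_const, Finset.card_univ, Fintype.card_fin, nsmul_eq_mul]
          ring
  set M : ℝ := (C.nx : ℝ) ^ k * (C.nx * A) with hMdef
  have hM0 : 0 ≤ M := by positivity
  have h2 : ∀ z, C.sz z ^ (2 * (k + 1)) ≤ M ^ 2 * (N * ∑ j, ‖ev (s j) z‖ ^ 2) := by
    intro z
    have h3 : C.sz z ^ (k + 1) ≤ M * ∑ j, ‖ev (s j) z‖ := by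
      refine (hsz z).trans (le_of_eq ?_)
      rw [hMdef]
      ring
    have h4 : 0 ≤ C.sz z ^ (k + 1) := pow_nonneg (sz_nonneg C z) _
    have h5 : (∑ j, ‖ev (s j) z‖) ^ 2 ≤ N * ∑ j, ‖ev (s j) z‖ ^ 2 := by
      have := sq_sum_le_card_mul_sum_sq (s := Finset.univ) (f := fun j => ‖ev (s j) z‖)
      rw [Finset.card_univ, Fintype.card_fin] at this
      exact this
    calc C.sz z ^ (2 * (k + 1)) = (C.sz z ^ (k + 1)) ^ 2 := by rw [← pow_mul, mul_comm]
      _ ≤ (M * ∑ j, ‖ev (s j) z‖) ^ 2 := pow_le_pow_left₀ h4 h3 2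
      _ = M ^ 2 * (∑ j, ‖ev (s j) z‖) ^ 2 := by ring
      _ ≤ M ^ 2 * (N * ∑ j, ‖ev (s j) z‖ ^ 2) := by gcongr
  refine ⟨(M ^ 2 * N + 1)⁻¹, by positivity, fun z => ?_⟩
  have h3 := h2 z
  have h4 : 0 ≤ ∑ j, ‖ev (s j) z‖ ^ 2 := Finset.sum_nonneg fun _ _ => sq_nonneg _
  rw [inv_mul_le_iff₀ (by positivity)]
  nlinarith

private theorem PPn_cont (C : Cone) {N : ℕ} (n : ℕ) (s : Fin N → MvPolynomial (Fin C.m) ℂ)
    (lam : Fin N → ℕ) (t : ℝ) : Continuous fun z => PPn n s lam t z := by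
  unfold PPn
  exact continuous_finsetSum _ fun j _ => continuous_const.mul ((ev_cont (s j)).norm.pow 2)

private theorem PP_eq {m N : ℕ} (s : Fin N → MvPolynomial (Fin m) ℂ) (lam : Fin N → ℕ) (t : ℝ)
    (z : Fin m → ℂ) : PP s lam t z = PPn 0 s lam t z := by
  unfold PP PPn
  simp

private theorem PPn_nonneg {m N : ℕ} (n : ℕ) (s : Fin N → MvPolynomial (Fin m) ℂ) (lam : Fin N → ℕ)
    (t : ℝ) (z : Fin m → ℂ) : 0 ≤ PPn n s lam t z :=
  Finset.sum_nonneg fun _ _ => by positivity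

private theorem PPn_deriv {m N : ℕ} (n : ℕ) (s : Fin N → MvPolynomial (Fin m) ℂ) (lam : Fin N → ℕ)
    (t : ℝ) (z : Fin m → ℂ) :
    HasDerivAt (fun t => PPn n s lam t z) (PPn (n + 1) s lam t z) t := by
  unfold PPn
  apply HasDerivAt.fun_sum
  intro j _
  have h1 : HasDerivAt (fun t : ℝ => t * (lam j : ℝ)) (lam j : ℝ) t := by
    simpa using (hasDerivAt_id t).mul_const (lam j : ℝ)
  have h2 := ((h1.exp.const_mul ((lam j : ℝ) ^ n)).mul_const (‖ev (s j) z‖ ^ 2))
  refine h2.congr_deriv ?_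
  rw [pow_succ]
  ring

private theorem lam_le {N : ℕ} (lam : Fin N → ℕ) (j : Fin N) :
    (lam j : ℝ) ≤ ∑ j, (lam j : ℝ) :=
  Finset.single_le_sum (f := fun j => (lam j : ℝ)) (fun _ _ => Nat.cast_nonneg _)
    (Finset.mem_univ j)

private theorem PP_lower {m N : ℕ} (s : Fin N → MvPolynomial (Fin m) ℂ) (lam : Fin N → ℕ)
    {t T : ℝ} (ht : |t| ≤ T) (z : Fin m → ℂ) :
    Real.exp (-(T * ∑ j, (lam j : ℝ))) * ∑ j, ‖ev (s j) z‖ ^ 2 ≤ PP s lam t z := by
  unfold PP
  rw [Finset.mul_sum]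
  apply Finset.sum_le_sum
  intro j _
  apply mul_le_mul_of_nonneg_right _ (sq_nonneg _)
  apply Real.exp_le_exp.2
  have h1 := lam_le lam j
  have h2 : (0 : ℝ) ≤ lam j := Nat.cast_nonneg _
  have h3 := neg_abs_le t
  have h4 : 0 ≤ T := (abs_nonneg t).trans ht
  have h5 : -|t| * (lam j : ℝ) ≤ t * lam j := mul_le_mul_of_nonneg_right h3 h2
  have h6 : |t| * (lam j : ℝ) ≤ T * ∑ j, (lam j : ℝ) := mul_le_mul ht h1 h2 h4
  linarith

private theorem upper (C : Cone) (hC : Good C) {D N : ℕ}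
    (s : Fin N → MvPolynomial (Fin C.m) ℂ) (hs : Submodule.span ℂ (Set.range s) = C.R D) :
    ∃ B : ℝ, 0 ≤ B ∧ ∀ j z, ‖ev (s j) z‖ ^ 2 ≤ B * C.sz z ^ (2 * D) := by
  have h1 : ∀ j, ∃ B : ℝ, ∀ z, ‖ev (s j) z‖ ≤ B * C.sz z ^ D := by
    intro j
    apply hC.bdd D
    rw [← hs]
    exact Submodule.subset_span ⟨j, rfl⟩
  choose B hB using h1
  refine ⟨(∑ j, |B j|) ^ 2, sq_nonneg _, fun j z => ?_⟩
  have h2 : B j ≤ ∑ j, |B j| := (le_abs_self _).trans
    (Finset.single_le_sum (f := fun j => |B j|) (fun _ _ => abs_nonneg _) (Finset.mem_univ j))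
  have h3 : 0 ≤ C.sz z ^ D := pow_nonneg (sz_nonneg C z) _
  have h4 : ‖ev (s j) z‖ ≤ (∑ j, |B j|) * C.sz z ^ D :=
    (hB j z).trans (mul_le_mul_of_nonneg_right h2 h3)
  calc ‖ev (s j) z‖ ^ 2 ≤ ((∑ j, |B j|) * C.sz z ^ D) ^ 2 :=
        pow_le_pow_left₀ (norm_nonneg _) h4 2
    _ = (∑ j, |B j|) ^ 2 * C.sz z ^ (2 * D) := by rw [mul_pow, ← pow_mul, mul_comm D 2]

private theorem PPn_upper (C : Cone) {N : ℕ} (n : ℕ) (s : Fin N → MvPolynomial (Fin C.m) ℂ)
    (lam : Fin N → ℕ) {D : ℕ} {B : ℝ} (hB0 : 0 ≤ B)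
    (hB : ∀ j z, ‖ev (s j) z‖ ^ 2 ≤ B * C.sz z ^ (2 * D)) {t T : ℝ} (ht : |t| ≤ T)
    (z : Fin C.m → ℂ) :
    PPn n s lam t z ≤ N * ((∑ j, (lam j : ℝ)) ^ n * Real.exp (T * ∑ j, (lam j : ℝ)) * B) *
      C.sz z ^ (2 * D) := by
  unfold PPn
  have h0 : ∀ j : Fin N, (lam j : ℝ) ^ n * Real.exp (t * lam j) * ‖ev (s j) z‖ ^ 2 ≤
      ((∑ j, (lam j : ℝ)) ^ n * Real.exp (T * ∑ j, (lam j : ℝ)) * B) * C.sz z ^ (2 * D) := by
    intro j
    have h1 := lam_le lam j
    have h2 : (0 : ℝ) ≤ lam j := Nat.cast_nonneg _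
    have h4 : 0 ≤ T := (abs_nonneg t).trans ht
    have h5 : t * (lam j : ℝ) ≤ T * ∑ j, (lam j : ℝ) :=
      (mul_le_mul_of_nonneg_right (le_abs_self t) h2).trans (mul_le_mul ht h1 h2 h4)
    have h6 : (lam j : ℝ) ^ n ≤ (∑ j, (lam j : ℝ)) ^ n := pow_le_pow_left₀ h2 h1 n
    have h7 : Real.exp (t * lam j) ≤ Real.exp (T * ∑ j, (lam j : ℝ)) := Real.exp_le_exp.2 h5
    have h8 : 0 ≤ C.sz z ^ (2 * D) := pow_nonneg (sz_nonneg C z) _
    have h9 : (0 : ℝ) ≤ ∑ j, (lam j : ℝ) := h2.trans h1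
    calc (lam j : ℝ) ^ n * Real.exp (t * lam j) * ‖ev (s j) z‖ ^ 2
        ≤ (∑ j, (lam j : ℝ)) ^ n * Real.exp (T * ∑ j, (lam j : ℝ)) * (B * C.sz z ^ (2 * D)) := by
          apply mul_le_mul _ (hB j z) (sq_nonneg _) (by positivity)
          exact mul_le_mul h6 h7 (Real.exp_pos _).le (by positivity)
      _ = _ := by ring
  calc ∑ j, (lam j : ℝ) ^ n * Real.exp (t * lam j) * ‖ev (s j) z‖ ^ 2
      ≤ ∑ _j : Fin N, ((∑ j, (lam j : ℝ)) ^ n * Real.exp (T * ∑ j, (lam j : ℝ)) * B) *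
          C.sz z ^ (2 * D) := Finset.sum_le_sum fun j _ => h0 j
    _ = _ := by
        rw [Finset.sum_const, Finset.card_univ, Fintype.card_fin, nsmul_eq_mul]
        ring

theorem hDIF (hM : StMOM) : StDIF := by
  intro C hC D N hD s lam hs t
  obtain ⟨c, hc, hlow⟩ := lower C hC hD s hs
  obtain ⟨B, hB0, hB⟩ := upper C hC s hs
  set L : ℝ := ∑ j, (lam j : ℝ) with hL
  set T : ℝ := |t| + 1 with hT
  have htT : |t| ≤ T := by linarith
  set c' : ℝ := Real.exp (-(T * L)) * c with hc'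
  have hc'0 : 0 < c' := by positivity
  have hUm : MeasurableSet C.U := (U_open C).measurableSet
  have hPP : ∀ t', |t'| ≤ T → ∀ z, c' * C.sz z ^ (2 * D) ≤ PP s lam t' z := by
    intro t' ht' z
    refine le_trans ?_ (PP_lower s lam ht' z)
    rw [hc', mul_assoc]
    exact mul_le_mul_of_nonneg_left (hlow z) (Real.exp_pos _).le
  have hexp : ∀ t', |t'| ≤ T → ∀ z,
      Real.exp (-PP s lam t' z) ≤ Real.exp (-(c' * C.sz z ^ (2 * D))) := by
    intro t' ht' z
    exact Real.exp_le_exp.2 (neg_le_neg (hPP t' ht' z))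
  have hcJ := ev_cont C.J
  have hcsz := sz_cont C
  have hcPP : ∀ t', Continuous fun z => PP s lam t' z := by
    intro t'
    have h1 := PPn_cont C 0 s lam t'
    have h2 : (fun z => PP s lam t' z) = fun z => PPn 0 s lam t' z := funext fun z => PP_eq s lam t' z
    rw [h2]
    exact h1
  -- integrability
  have hint : ∀ (q : ℕ), IntegrableOn (fun z => C.sz z ^ q * Real.exp (-PP s lam t z) *
      ‖ev C.J z‖ ^ 2) C.U := by
    intro q
    refine Integrable.mono' (dom hM C hC hc'0 hD q) ?_ ?_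
    · have h1 := hcPP t
      have h2 : Continuous fun z => C.sz z ^ q * Real.exp (-PP s lam t z) * ‖ev C.J z‖ ^ 2 := by
        fun_prop
      exact h2.aestronglyMeasurable
    · refine ae_restrict_of_forall_mem hUm fun z _ => ?_
      have hsz := sz_nonneg C z
      rw [Real.norm_of_nonneg (by positivity)]
      have := hexp t htT z
      gcongr
  -- bounds of the functions
  set K1 : ℝ := N * (L ^ 1 * Real.exp (T * L) * B) with hK1
  set K2 : ℝ := N * (L ^ 2 * Real.exp (T * L) * B) with hK2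
  have hL0 : 0 ≤ L := Finset.sum_nonneg fun _ _ => Nat.cast_nonneg _
  have hK10 : 0 ≤ K1 := by positivity
  have hK20 : 0 ≤ K2 := by positivity
  have hP1 : ∀ t', |t'| ≤ T → ∀ z, PPn 1 s lam t' z ≤ K1 * C.sz z ^ (2 * D) := fun t' ht' z =>
    PPn_upper C 1 s lam hB0 hB ht' z
  have hP2 : ∀ t', |t'| ≤ T → ∀ z, PPn 2 s lam t' z ≤ K2 * C.sz z ^ (2 * D) := fun t' ht' z =>
    PPn_upper C 2 s lam hB0 hB ht' z
  have hnhds : {t' : ℝ | |t'| ≤ T} ∈ 𝓝 t := by
    have h1 : {t' : ℝ | |t'| < T} ∈ 𝓝 t := by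
      apply (isOpen_lt continuous_abs continuous_const).mem_nhds
      show |t| < T
      linarith
    refine Filter.mem_of_superset h1 fun x hx => ?_
    have hx' : |x| < T := hx
    exact hx'.le
  have hdexp : ∀ (t' : ℝ) z, HasDerivAt (fun t => Real.exp (-PP s lam t z))
      (-PPn 1 s lam t' z * Real.exp (-PP s lam t' z)) t' := by
    intro t' z
    have h1 : HasDerivAt (fun t => PP s lam t z) (PPn 1 s lam t' z) t' := by
      have h2 := PPn_deriv 0 s lam t' z
      have h3 : (fun t => PP s lam t z) = fun t => PPn 0 s lam t z :=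
        funext fun t => PP_eq s lam t z
      rw [h3]
      exact h2
    have h2 := (h1.fun_neg).exp
    refine h2.congr_deriv ?_
    ring
  refine ⟨?_, ?_, ?_, ?_⟩
  · -- positivity
    unfold Cone.ZZ
    have h0 := hint 0
    simp only [pow_zero, one_mul] at h0
    rw [setIntegral_pos_iff_support_of_nonneg_ae (ae_of_all _ fun z => by positivity) h0]
    have h1 : (Function.support fun z => Real.exp (-PP s lam t z) * ‖ev C.J z‖ ^ 2) ∩ C.U =
        C.U := by
      apply Set.inter_eq_right.2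
      intro z hz
      rw [Function.mem_support]
      have h2 := hC.J0 z hz
      positivity
    rw [h1]
    exact (U_open C).measure_pos volume (U_nonempty C hC)
  · intro q
    have h0 := hint 0
    simp only [pow_zero, one_mul] at h0
    have h1 := h0.add (hint q)
    refine h1.congr (ae_of_all _ fun z => ?_)
    simp only [Pi.add_apply]
    ring
  · unfold Cone.ZZ
    have h0 := hint 0
    simp only [pow_zero, one_mul] at h0
    have h1 := (dom hM C hC hc'0 hD (2 * D)).const_mul K1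
    have h2 := (hasDerivAt_integral_of_dominated_loc_of_deriv_le
      (μ := volume.restrict C.U)
      (F := fun t z => Real.exp (-PP s lam t z) * ‖ev C.J z‖ ^ 2)
      (F' := fun t z => -(PPn 1 s lam t z * Real.exp (-PP s lam t z) * ‖ev C.J z‖ ^ 2))
      (bound := fun z => K1 * (C.sz z ^ (2 * D) * Real.exp (-(c' * C.sz z ^ (2 * D))) *
        ‖ev C.J z‖ ^ 2)) (x₀ := t) hnhds ?_ h0 ?_ ?_ h1 ?_).2
    · rw [integral_neg] at h2
      exact h2
    · refine Filter.Eventually.of_forall fun t' => ?_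
      have h3 := hcPP t'
      have h4 : Continuous fun z => Real.exp (-PP s lam t' z) * ‖ev C.J z‖ ^ 2 := by fun_prop
      exact h4.aestronglyMeasurable
    · have h3 := hcPP t
      have h5 := PPn_cont C 1 s lam t
      have h4 : Continuous fun z =>
          -(PPn 1 s lam t z * Real.exp (-PP s lam t z) * ‖ev C.J z‖ ^ 2) := by fun_prop
      exact h4.aestronglyMeasurable
    · refine ae_of_all _ fun z t' ht' => ?_
      have hsz := sz_nonneg C z
      have h3 := PPn_nonneg 1 s lam t' z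
      rw [norm_neg, Real.norm_of_nonneg (by positivity)]
      have h4 := hexp t' ht' z
      have h5 := hP1 t' ht' z
      calc PPn 1 s lam t' z * Real.exp (-PP s lam t' z) * ‖ev C.J z‖ ^ 2
          ≤ K1 * C.sz z ^ (2 * D) * Real.exp (-(c' * C.sz z ^ (2 * D))) * ‖ev C.J z‖ ^ 2 := by
            gcongr
        _ = _ := by ring
    · refine ae_of_all _ fun z t' _ => ?_
      have h3 := (hdexp t' z).mul_const (‖ev C.J z‖ ^ 2)
      refine h3.congr_deriv ?_
      ring
  · have h0 : IntegrableOn (fun z => PPn 1 s lam t z * Real.exp (-PP s lam t z) *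
        ‖ev C.J z‖ ^ 2) C.U := by
      refine Integrable.mono' ((hint (2 * D)).const_mul K1) ?_ ?_
      · have h3 := hcPP t
        have h5 := PPn_cont C 1 s lam t
        have h4 : Continuous fun z =>
            PPn 1 s lam t z * Real.exp (-PP s lam t z) * ‖ev C.J z‖ ^ 2 := by fun_prop
        exact h4.aestronglyMeasurable
      · refine ae_restrict_of_forall_mem hUm fun z _ => ?_
        have hsz := sz_nonneg C z
        have h3 := PPn_nonneg 1 s lam t z
        rw [Real.norm_of_nonneg (by positivity)]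
        have h5 := hP1 t htT z
        calc PPn 1 s lam t z * Real.exp (-PP s lam t z) * ‖ev C.J z‖ ^ 2
            ≤ K1 * C.sz z ^ (2 * D) * Real.exp (-PP s lam t z) * ‖ev C.J z‖ ^ 2 := by gcongr
          _ = _ := by ring
    have h1 := ((dom hM C hC hc'0 hD (2 * D)).const_mul K2).add
      ((dom hM C hC hc'0 hD (2 * (2 * D))).const_mul (K1 ^ 2))
    refine (hasDerivAt_integral_of_dominated_loc_of_deriv_le
      (μ := volume.restrict C.U)
      (F := fun t z => PPn 1 s lam t z * Real.exp (-PP s lam t z) * ‖ev C.J z‖ ^ 2)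
      (F' := fun t z => (PPn 2 s lam t z - PPn 1 s lam t z ^ 2) * Real.exp (-PP s lam t z) *
        ‖ev C.J z‖ ^ 2)
      (x₀ := t) hnhds ?_ h0 ?_ ?_ h1 ?_).2
    · refine Filter.Eventually.of_forall fun t' => ?_
      have h3 := hcPP t'
      have h5 := PPn_cont C 1 s lam t'
      have h4 : Continuous fun z =>
          PPn 1 s lam t' z * Real.exp (-PP s lam t' z) * ‖ev C.J z‖ ^ 2 := by fun_prop
      exact h4.aestronglyMeasurable
    · have h3 := hcPP t
      have h5 := PPn_cont C 1 s lam t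
      have h6 := PPn_cont C 2 s lam t
      have h4 : Continuous fun z =>
          (PPn 2 s lam t z - PPn 1 s lam t z ^ 2) * Real.exp (-PP s lam t z) *
            ‖ev C.J z‖ ^ 2 := by fun_prop
      exact h4.aestronglyMeasurable
    · refine ae_of_all _ fun z t' ht' => ?_
      have hsz := sz_nonneg C z
      have h3 := PPn_nonneg 1 s lam t' z
      have h3' := PPn_nonneg 2 s lam t' z
      have h4 := hexp t' ht' z
      have h5 := hP1 t' ht' z
      have h6 := hP2 t' ht' z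
      have h7 : |PPn 2 s lam t' z - PPn 1 s lam t' z ^ 2| ≤
          K2 * C.sz z ^ (2 * D) + K1 ^ 2 * C.sz z ^ (2 * (2 * D)) := by
        have h8 : PPn 1 s lam t' z ^ 2 ≤ K1 ^ 2 * C.sz z ^ (2 * (2 * D)) := by
          calc PPn 1 s lam t' z ^ 2 ≤ (K1 * C.sz z ^ (2 * D)) ^ 2 := pow_le_pow_left₀ h3 h5 2
            _ = _ := by rw [mul_pow, ← pow_mul, mul_comm (2 * D) 2]
        have h9 : 0 ≤ PPn 1 s lam t' z ^ 2 := sq_nonneg _
        rw [abs_le]
        have h10 : 0 ≤ C.sz z ^ (2 * D) := pow_nonneg hsz _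
        have h11 : 0 ≤ K2 * C.sz z ^ (2 * D) := mul_nonneg hK20 h10
        have h12 : 0 ≤ K1 ^ 2 * C.sz z ^ (2 * (2 * D)) := by positivity
        constructor <;> linarith
      rw [norm_mul, norm_mul, Real.norm_eq_abs, Real.norm_of_nonneg (Real.exp_pos _).le,
        Real.norm_of_nonneg (sq_nonneg _)]
      simp only [Pi.add_apply]
      calc |PPn 2 s lam t' z - PPn 1 s lam t' z ^ 2| * Real.exp (-PP s lam t' z) * ‖ev C.J z‖ ^ 2
          ≤ (K2 * C.sz z ^ (2 * D) + K1 ^ 2 * C.sz z ^ (2 * (2 * D))) *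
              Real.exp (-(c' * C.sz z ^ (2 * D))) * ‖ev C.J z‖ ^ 2 := by gcongr
        _ = _ := by ring
    · refine ae_of_all _ fun z t' _ => ?_
      have h3 := ((PPn_deriv 1 s lam t' z).fun_mul (hdexp t' z)).mul_const (‖ev C.J z‖ ^ 2)
      refine h3.congr_deriv ?_
      ring

end Pool.Agent.Helper32.KP
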