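import Pool.Agent.Helper85.KP.StE
import Pool.Agent.Helper92.KP.M_MOM

/-!
# Project KP (MP_26be5b_ag): module EVM (the limit of the energies)
-/

set_option autoImplicit false

namespace Pool.Agent.Helper32.KP

open MeasureTheory Filter Pool.Agent.Helper52.KP Pool.Agent.Helper85.KP
open scoped ContDiff ComplexOrder Topology

open Pool.Agent.Helper92.KP (continuous_ev isOpen_U measU u_pos m_two exists_uu one_dim)

private theorem S1_meas (C : Cone) (hC : Good C) : MeasurableSet (S1 C) := by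
  obtain ⟨ψ, hψm, hψ⟩ := exists_uu hC
  have e : S1 C = C.U ∩ ψ ⁻¹' Set.Iio 1 := by
    ext z
    simp only [S1, Set.mem_ofPred_eq, Set.mem_inter_iff, Set.mem_preimage, Set.mem_Iio]
    constructor
    · rintro ⟨h1, h2⟩
      exact ⟨h1, by rw [hψ z h1]; exact h2⟩
    · rintro ⟨h1, h2⟩
      exact ⟨h1, by rw [← hψ z h1]; exact h2⟩
  rw [e]
  exact (measU C).inter (hψm measurableSet_Iio)

private theorem S1_fin (hVOL : StVOL) (C : Cone) (hC : Good C) :
    IsFiniteMeasure (C.nu.restrict (S1 C)) := by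
  refine ⟨?_⟩
  have hvol : C.nu (S1 C) = ENNReal.ofReal (C.rd * (Real.pi / 2) ^ C.m / C.m.factorial) :=
    hVOL C hC
  rw [Measure.restrict_apply_univ, hvol]
  exact ENNReal.ofReal_lt_top

private theorem int_S1 (hVOL : StVOL) (C : Cone) (hC : Good C) (x : (Fin C.m → ℂ) → ℝ) (B : ℝ)
    (hx : AEStronglyMeasurable x (C.nu.restrict (S1 C))) (hB : ∀ z ∈ C.U, |x z| ≤ B) :
    Integrable x (C.nu.restrict (S1 C)) := by
  have := S1_fin hVOL C hC
  refine Integrable.mono' (integrable_const B) hx ?_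
  refine (ae_restrict_iff' (S1_meas C hC)).2 (Eventually.of_forall fun z hz => ?_)
  rw [Real.norm_eq_abs]
  exact hB z hz.1

/-- radial integration -/
private theorem rad (hSCA : StSCA) (hVOL : StVOL) (C : Cone) (hC : Good C)
    (x : (Fin C.m → ℂ) → ℝ) (B : ℝ) (hx : Measurable x) (hB : ∀ z ∈ C.U, 0 ≤ x z ∧ x z ≤ B)
    (h0 : ∀ z ∈ C.U, ∀ c : ℂ, c ≠ 0 → x (scl C.w c z) = x z) (p : ℕ) :
    IntegrableOn (fun z => C.u z ^ p * x z * Real.exp (-C.u z) * ‖ev C.J z‖ ^ 2) C.U ∧
    ∫ z in C.U, C.u z ^ p * x z * Real.exp (-C.u z) * ‖ev C.J z‖ ^ 2 =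
      C.m * (p + C.m - 1).factorial * I1 C x := by
  obtain ⟨ψ, hψm, hψ⟩ := exists_uu hC
  have hm := m_two hC
  have hm2 : (2 : ℝ) ≤ C.m := by exact_mod_cast hm
  have hset : {z | z ∈ C.U ∧ ψ z < 1} = S1 C := by
    ext z
    simp only [S1, Set.mem_ofPred_eq]
    constructor
    · rintro ⟨h1, h2⟩
      exact ⟨h1, by rw [← hψ z h1]; exact h2⟩
    · rintro ⟨h1, h2⟩
      exact ⟨h1, by rw [hψ z h1]; exact h2⟩
  have hxi : Integrable x (C.nu.restrict (S1 C)) := by
    refine int_S1 hVOL C hC x B hx.aestronglyMeasurable fun z hz => ?_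
    rw [abs_of_nonneg (hB z hz).1]
    exact (hB z hz).2
  have hxn : 0 ≤ᵐ[C.nu.restrict (S1 C)] x :=
    (ae_restrict_iff' (S1_meas C hC)).2 (Eventually.of_forall fun z hz => (hB z hz.1).1)
  have hI : ∫⁻ z in S1 C, ENNReal.ofReal (x z) ∂C.nu = ENNReal.ofReal (I1 C x) := by
    unfold I1
    rw [ofReal_integral_eq_lintegral_ofReal hxi hxn]
  have hI0 : 0 ≤ I1 C x := integral_nonneg_of_ae hxn
  have h := hSCA C hC 1 0 one_pos (by linarith) ψ (fun z => ENNReal.ofReal (x z)) hψm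
    hx.ennreal_ofReal (by
      intro z hz
      refine ⟨by rw [hψ z hz]; exact u_pos hC hz, ?_⟩
      intro c hc
      refine ⟨?_, ?_⟩
      · rw [hψ z hz, hψ _ (hC.sclU c hc z hz), hC.uhom z hz c hc, Real.rpow_one]
      · simp only [Real.rpow_zero, ENNReal.ofReal_one, one_mul]
        rw [h0 z hz c hc]) (by
      rw [hset, hI]
      exact ENNReal.ofReal_ne_top)
    (fun s => ENNReal.ofReal (s ^ (p : ℝ) * Real.exp (-s))) (by fun_prop)
  rw [hset, hI] at h
  have h1 : ∫⁻ s in Set.Ioi (0 : ℝ), ENNReal.ofReal (s ^ (p : ℝ) * Real.exp (-s)) *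
      ENNReal.ofReal ((C.m + 0) / 1 * s ^ (((C.m : ℝ) + 0) / 1 - 1)) =
      ENNReal.ofReal (C.m * (p + C.m - 1).factorial) := by
    have h2 := one_dim C.m hm p (by
      have : (0 : ℝ) ≤ p := Nat.cast_nonneg p
      linarith)
    rw [add_zero, div_one, h2]
    congr 2
    have h3 : ((p : ℝ) + C.m) = ((p + C.m - 1 : ℕ) : ℝ) + 1 := by
      have : p + C.m = (p + C.m - 1) + 1 := by omega
      exact_mod_cast this
    rw [h3, Real.Gamma_nat_eq_factorial]
  rw [h1, ← ENNReal.ofReal_mul (by positivity)] at h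
  have hJm : Measurable (fun z : Fin C.m → ℂ => ENNReal.ofReal (‖ev C.J z‖ ^ 2)) :=
    (((continuous_ev C.J).norm.pow 2).measurable).ennreal_ofReal
  have hlin : ∫⁻ z in C.U, ENNReal.ofReal (C.u z ^ p * x z * Real.exp (-C.u z) *
      ‖ev C.J z‖ ^ 2) = ENNReal.ofReal (C.m * (p + C.m - 1).factorial * I1 C x) := by
    rw [← h]
    unfold Cone.nu
    rw [restrict_withDensity (measU C), lintegral_withDensity_eq_lintegral_mul _ hJm (by fun_prop)]
    apply setLIntegral_congr_fun (measU C)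
    intro z hz
    have hu := u_pos hC hz
    have hxz := (hB z hz).1
    simp only [Pi.mul_apply]
    rw [hψ z hz, Real.rpow_natCast, ← ENNReal.ofReal_mul (by positivity),
      ← ENNReal.ofReal_mul (by positivity)]
    congr 1
    ring
  have hmeas : AEStronglyMeasurable
      (fun z => C.u z ^ p * x z * Real.exp (-C.u z) * ‖ev C.J z‖ ^ 2)
      (volume.restrict C.U) := by
    have h2 : Measurable (fun z => ψ z ^ p * x z * Real.exp (-ψ z) * ‖ev C.J z‖ ^ 2) := by
      have h3 := (continuous_ev C.J).measurable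
      fun_prop
    refine h2.aestronglyMeasurable.congr ?_
    refine (ae_restrict_iff' (measU C)).2 (Eventually.of_forall fun z hz => ?_)
    simp only
    rw [hψ z hz]
  have hae : 0 ≤ᵐ[volume.restrict C.U]
      (fun z => C.u z ^ p * x z * Real.exp (-C.u z) * ‖ev C.J z‖ ^ 2) := by
    refine (ae_restrict_iff' (measU C)).2 (Eventually.of_forall fun z hz => ?_)
    have hu := u_pos hC hz
    have hxz := (hB z hz).1
    simp only [Pi.zero_apply]
    positivity
  refine ⟨⟨hmeas, ?_⟩, ?_⟩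
  · rw [hasFiniteIntegral_iff_ofReal hae, hlin]
    exact ENNReal.ofReal_lt_top
  · rw [integral_eq_lintegral_of_nonneg_ae hae hmeas, hlin, ENNReal.toReal_ofReal]
    positivity

private theorem m_fac (C : Cone) (hC : Good C) :
    ((C.m : ℝ) * (0 + C.m - 1).factorial = C.m.factorial) ∧
    ((C.m : ℝ) * (1 + C.m - 1).factorial = C.m * C.m.factorial) ∧
    ((C.m : ℝ) * (2 + C.m - 1).factorial = C.m * ((C.m + 1) * C.m.factorial)) := by
  have hm := m_two hC
  obtain ⟨q, hq⟩ : ∃ q, C.m = q + 1 := ⟨C.m - 1, by omega⟩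
  refine ⟨?_, ?_, ?_⟩
  · rw [hq]
    have : 0 + (q + 1) - 1 = q := by omega
    rw [this, Nat.factorial_succ]
    push_cast
    ring
  · have : 1 + C.m - 1 = C.m := by omega
    rw [this]
  · have : 2 + C.m - 1 = C.m + 1 := by omega
    rw [this, Nat.factorial_succ]
    push_cast
    ring

private theorem int3 {α : Type*} [MeasurableSpace α] {μ : Measure α} {f g h : α → ℝ} (a b : ℝ)
    (hf : Integrable f μ) (hg : Integrable g μ) (hh : Integrable h μ) :
    ∫ z, (f z + a * g z + b * h z) ∂μ = ∫ z, f z ∂μ + a * ∫ z, g z ∂μ + b * ∫ z, h z ∂μ := by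
  have h1 : Integrable (fun z => f z + a * g z) μ := hf.add (hg.const_mul a)
  rw [integral_add h1 (hh.const_mul b), integral_add hf (hg.const_mul a), integral_const_mul,
    integral_const_mul]

/-- the second claim -/
private theorem second (hSCA : StSCA) (hVOL : StVOL) (C : Cone) (hC : Good C)
    (hI : 0 < I1 C (fun _ => 1)) (g : (Fin C.m → ℂ) → ℝ) (B : ℝ) (hg : Measurable g)
    (hB : ∀ z ∈ C.U, 0 ≤ g z ∧ g z ≤ B * C.u z)
    (hh : ∀ z ∈ C.U, ∀ c : ℂ, c ≠ 0 → g (scl C.w c z) = ‖c‖ * g z) (c : ℝ) :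
    IntegrableOn (fun z => (g z - c) ^ 2 * Real.exp (-C.u z) * ‖ev C.J z‖ ^ 2) C.U ∧
    Vm C g ≤ ∫ z in C.U, (g z - c) ^ 2 * Real.exp (-C.u z) * ‖ev C.J z‖ ^ 2 := by
  obtain ⟨ψ, hψm, hψ⟩ := exists_uu hC
  have hv : Measurable fun z => g z / ψ z := hg.div hψm
  have hvB : ∀ z ∈ C.U, 0 ≤ g z / ψ z ∧ g z / ψ z ≤ B := by
    intro z hz
    have hu := u_pos hC hz
    rw [hψ z hz]
    exact ⟨div_nonneg (hB z hz).1 hu.le, (div_le_iff₀ hu).2 (hB z hz).2⟩
  have hvh : ∀ z ∈ C.U, ∀ c : ℂ, c ≠ 0 → g (scl C.w c z) / ψ (scl C.w c z) = g z / ψ z := by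
    intro z hz c hc
    have hu := u_pos hC hz
    have hc' : ‖c‖ ≠ 0 := norm_ne_zero_iff.2 hc
    rw [hψ z hz, hψ _ (hC.sclU c hc z hz), hC.uhom z hz c hc, hh z hz c hc]
    rw [mul_div_mul_left _ _ hc']
  have r0 := rad hSCA hVOL C hC (fun _ => 1) 1 measurable_const (fun _ _ => by norm_num)
    (fun _ _ _ _ => rfl) 0
  have r1 := rad hSCA hVOL C hC (fun z => g z / ψ z) B hv hvB hvh 1
  have r2 := rad hSCA hVOL C hC (fun z => (g z / ψ z) ^ 2) (B ^ 2) (hv.pow_const 2)
    (fun z hz => ⟨sq_nonneg _, pow_le_pow_left₀ (hvB z hz).1 (hvB z hz).2 2⟩)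
    (fun z hz c hc => by rw [hvh z hz c hc]) 2
  have e1 : I1 C (fun z => g z / ψ z) = I1 C (fun z => g z / C.u z) := by
    unfold I1
    refine setIntegral_congr_fun (S1_meas C hC) fun z hz => ?_
    rw [hψ z hz.1]
  have e2 : I1 C (fun z => (g z / ψ z) ^ 2) = I1 C (fun z => (g z / C.u z) ^ 2) := by
    unfold I1
    refine setIntegral_congr_fun (S1_meas C hC) fun z hz => ?_
    rw [hψ z hz.1]
  rw [e1] at r1
  rw [e2] at r2
  obtain ⟨f0, f1, f2⟩ := m_fac C hC
  rw [f0] at r0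
  rw [f1] at r1
  rw [f2] at r2
  have hpt : ∀ z ∈ C.U, (g z - c) ^ 2 * Real.exp (-C.u z) * ‖ev C.J z‖ ^ 2 =
      C.u z ^ 2 * (g z / ψ z) ^ 2 * Real.exp (-C.u z) * ‖ev C.J z‖ ^ 2 +
        (-(2 * c)) * (C.u z ^ 1 * (g z / ψ z) * Real.exp (-C.u z) * ‖ev C.J z‖ ^ 2) +
        c ^ 2 * (C.u z ^ 0 * 1 * Real.exp (-C.u z) * ‖ev C.J z‖ ^ 2) := by
    intro z hz
    have hu := u_pos hC hz
    have h3 : C.u z * (g z / ψ z) = g z := by
      rw [hψ z hz]
      field_simp
    have h4 : C.u z ^ 2 * (g z / ψ z) ^ 2 = g z ^ 2 := by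
      rw [← mul_pow, h3]
    have h5 : C.u z ^ 1 * (g z / ψ z) = g z := by
      rw [pow_one, h3]
    rw [h4, h5]
    ring
  have i1 := r1.1.const_mul (-(2 * c))
  have i0 := r0.1.const_mul (c ^ 2)
  have i2 := r2.1
  refine ⟨?_, ?_⟩
  · exact ((i2.add i1).add i0).congr_fun (fun z hz => (hpt z hz).symm) (measU C)
  · rw [setIntegral_congr_fun (measU C) hpt]
    rw [int3 _ _ i2 r1.1 r0.1, r2.2, r1.2, r0.2]
    unfold Vm
    set I := I1 C (fun _ => 1) with hIdef
    set V := I1 C (fun z => g z / C.u z)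
    set V2 := I1 C (fun z => (g z / C.u z) ^ 2)
    have hf : (0 : ℝ) < C.m.factorial := by exact_mod_cast Nat.factorial_pos _
    have key : (C.m : ℝ) * ((C.m + 1) * C.m.factorial) * V2 +
        -(2 * c) * (C.m * C.m.factorial * V) + c ^ 2 * (C.m.factorial * I) -
        C.m * C.m.factorial * ((C.m + 1) * V2 - C.m * (V ^ 2 / I)) =
        C.m.factorial * I * (c - C.m * V / I) ^ 2 := by
      field_simp
      ring
    have h5 : 0 ≤ C.m.factorial * I * (c - C.m * V / I) ^ 2 := by positivity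
    linarith

private theorem cont_PPn {m N : ℕ} (n : ℕ) (s : Fin N → MvPolynomial (Fin m) ℂ)
    (lam : Fin N → ℕ) (t : ℝ) : Continuous (PPn n s lam t) := by
  unfold PPn
  refine continuous_finsetSum _ fun j _ => ?_
  have := continuous_ev (s j)
  fun_prop

private theorem cont_PP {m N : ℕ} (s : Fin N → MvPolynomial (Fin m) ℂ)
    (lam : Fin N → ℕ) (t : ℝ) : Continuous (PP s lam t) := by
  unfold PP
  refine continuous_finsetSum _ fun j _ => ?_
  have := continuous_ev (s j)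
  fun_prop

private theorem meas_F1 {m N : ℕ} (s : Fin N → MvPolynomial (Fin m) ℂ)
    (lam : Fin N → ℕ) (t : ℝ) : Measurable (F1 s lam t) := by
  unfold F1
  exact (cont_PPn 1 s lam t).measurable.div (cont_PP s lam t).measurable

private theorem meas_F2 {m N : ℕ} (s : Fin N → MvPolynomial (Fin m) ℂ)
    (lam : Fin N → ℕ) (t : ℝ) : Measurable (F2 s lam t) := by
  unfold F2
  exact ((cont_PPn 2 s lam t).measurable.div (cont_PP s lam t).measurable).sub
    ((meas_F1 s lam t).pow_const 2)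

private theorem lim_I1 (hVOL : StVOL) (C : Cone) (hC : Good C) (x : ℕ → (Fin C.m → ℂ) → ℝ)
    (y : (Fin C.m → ℂ) → ℝ) (B : ℝ) (hx : ∀ i, Measurable (x i)) (hB : ∀ i, ∀ z ∈ C.U, |x i z| ≤ B)
    (hl : ∀ᵐ z ∂volume.restrict C.U, Tendsto (fun i => x i z) atTop (𝓝 (y z))) :
    Tendsto (fun i => I1 C (x i)) atTop (𝓝 (I1 C y)) := by
  have := S1_fin hVOL C hC
  unfold I1
  refine tendsto_integral_of_dominated_convergence (fun _ => B)
    (fun i => (hx i).aestronglyMeasurable) (integrable_const B) (fun i => ?_) ?_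
  · refine (ae_restrict_iff' (S1_meas C hC)).2 (Eventually.of_forall fun z hz => ?_)
    rw [Real.norm_eq_abs]
    exact hB i z hz.1
  · have h1 : C.nu.restrict (S1 C) ≪ volume.restrict C.U := by
      have h2 : C.nu ≪ volume := withDensity_absolutelyContinuous _ _
      have h3 : C.nu.restrict (S1 C) ≤ C.nu.restrict C.U :=
        Measure.restrict_mono (fun z hz => hz.1) le_rfl
      exact (Measure.absolutelyContinuous_of_le h3).trans (h2.restrict C.U)
    exact h1.ae_le hl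

theorem hEVM : StEIN → StEVA → StEPO → StSCA → StVOL → StEWT → StEVM := by
  intro hEIN hEVA hEPO hSCA hVOL hEWT C r Λ k N s lam hC hS t ht0 htl hU2 g B hg hB hh hgl
  obtain ⟨hI, hW, hav⟩ := hEVA C r Λ k N s lam hC hS t ht0 htl
  refine ⟨?_, second hSCA hVOL C hC hI g B hg hB hh⟩
  obtain ⟨-, hpsi, -, -⟩ := hEWT C r Λ k N s lam hC hS t ht0 htl
  have hn := hC.hn
  have hr := hS.hr
  have hk := hS.kpos
  have hD : ∀ i, 0 < C.n * r * k i := fun i => Nat.mul_pos (Nat.mul_pos hn hr) (hk i)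
  set D : ℕ → ℕ := fun i => C.n * r * k i with hDdef
  have hDr : ∀ i, (0 : ℝ) < 2 * (D i : ℝ) := fun i => by
    have : (0 : ℝ) < (D i : ℝ) := by exact_mod_cast hD i
    linarith
  have hD0 : ∀ i, (D i : ℝ) ≠ 0 := fun i => by
    exact_mod_cast (hD i).ne'
  have hΛ : (0 : ℝ) < Λ := by exact_mod_cast hS.hΛ
  have hkr : ∀ i, (0 : ℝ) < k i := fun i => by exact_mod_cast hk i
  have hnr : (0 : ℝ) < C.n := by exact_mod_cast hn
  have hrr : (0 : ℝ) < r := by exact_mod_cast hr
  have hepo := fun i => hEPO C hC (D i) (N i) (hD i) (s i) (lam i) (hS.onb i).span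
    (Λ * k i) (mul_pos hΛ (hkr i)) (fun j => by exact_mod_cast hS.bd i j)
  have hein := fun i => hEIN C hC (D i) (N i) (hD i) (s i) (lam i) (hS.onb i).span (t i) (ht0 i)
  set v : ℕ → (Fin C.m → ℂ) → ℝ := fun i z => F1 (s i) (lam i) (t i) z / (2 * (D i : ℝ)) with hv
  have hvm : ∀ i, Measurable (v i) := fun i => (meas_F1 (s i) (lam i) (t i)).div_const _
  set b : ℝ := Λ / (2 * (C.n * r)) with hb
  have hb0 : 0 < b := by positivity
  have hvb : ∀ i, ∀ z ∈ C.U, 0 ≤ v i z ∧ v i z ≤ b := by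
    intro i z hz
    obtain ⟨-, -, -, h1, h2, -⟩ := hepo i z hz (t i) (ht0 i)
    refine ⟨div_nonneg h1 (hDr i).le, ?_⟩
    rw [hv, hb]
    simp only
    rw [div_le_div_iff₀ (hDr i) (by positivity)]
    have h3 : (D i : ℝ) = C.n * r * k i := by
      rw [hDdef]
      push_cast
      ring
    rw [h3]
    have h4 : (0 : ℝ) < 2 * (C.n * r) := by positivity
    nlinarith
  have hvl : ∀ᵐ z ∂volume.restrict C.U, Tendsto (fun i => v i z) atTop (𝓝 (g z / C.u z)) := by
    have hmem : ∀ᵐ z ∂volume.restrict C.U, z ∈ C.U := ae_restrict_mem (measU C)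
    filter_upwards [hpsi, hgl, hmem] with z h1 h2 hz
    have hu := u_pos hC hz
    have h3 := h2.div h1.2 hu.ne'
    refine h3.congr' ?_
    filter_upwards [h1.2.eventually (lt_mem_nhds hu)] with i hi
    simp only [psi1]
    exact mul_div_cancel_left₀ _ hi.ne'
  have habs : ∀ i, ∀ z ∈ C.U, |v i z| ≤ b := fun i z hz => by
    rw [abs_of_nonneg (hvb i z hz).1]
    exact (hvb i z hz).2
  have habs2 : ∀ i, ∀ z ∈ C.U, |v i z ^ 2| ≤ b ^ 2 := fun i z hz => by
    rw [abs_of_nonneg (sq_nonneg _)]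
    exact pow_le_pow_left₀ (hvb i z hz).1 (hvb i z hz).2 2
  have hl1 := lim_I1 hVOL C hC v (fun z => g z / C.u z) b hvm habs hvl
  have hl2 := lim_I1 hVOL C hC (fun i z => v i z ^ 2) (fun z => (g z / C.u z) ^ 2) (b ^ 2)
    (fun i => (hvm i).pow_const 2) habs2 (by
      filter_upwards [hvl] with z hz
      exact hz.pow 2)
  have ha1 := hav v b (fun i => (hvm i).aestronglyMeasurable) habs
  have ha2 := hav (fun i z => v i z ^ 2) (b ^ 2)
    (fun i => ((hvm i).pow_const 2).aestronglyMeasurable) habs2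
  set I := I1 C (fun _ => 1) with hIdef
  set V := I1 C (fun z => g z / C.u z) with hVdef
  set V2 := I1 C (fun z => (g z / C.u z) ^ 2) with hV2def
  set W : ℕ → ℝ := fun i => Iw C (D i) (s i) (lam i) (t i) (fun _ => 1) with hWdef
  have hWpos : ∀ i, 0 < W i := fun i => (hein i).2.2.1
  have hWl : Tendsto W atTop (𝓝 I) := hW
  set M : ℕ → ℝ := fun i => Iw C (D i) (s i) (lam i) (t i) (v i) with hMdef
  set Q : ℕ → ℝ := fun i => Iw C (D i) (s i) (lam i) (t i) (fun z => v i z ^ 2) with hQdef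
  have hMl : Tendsto M atTop (𝓝 V) := by
    have h1 : Tendsto (fun i => M i / W i - I1 C (v i) / I) atTop (𝓝 0) := ha1
    have h2 := ((h1.add (hl1.div_const I)).mul hWl)
    have h3 : (0 + V / I) * I = V := by field_simp; ring
    rw [h3] at h2
    refine h2.congr fun i => ?_
    have := (hWpos i).ne'
    field_simp
    ring
  have hQl : Tendsto Q atTop (𝓝 V2) := by
    have h1 : Tendsto (fun i => Q i / W i - I1 C (fun z => v i z ^ 2) / I) atTop (𝓝 0) := ha2
    have h2 := ((h1.add (hl2.div_const I)).mul hWl)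
    have h3 : (0 + V2 / I) * I = V2 := by field_simp; ring
    rw [h3] at h2
    refine h2.congr fun i => ?_
    have := (hWpos i).ne'
    field_simp
    ring
  -- the formula
  have hform : ∀ i, ∫ z in C.U, psi2 C (D i) (s i) (lam i) (t i) z *
      Real.exp (-psi C (D i) (s i) (lam i) (t i) z) * ‖ev C.J z‖ ^ 2 =
      C.m.factorial * W i * U2 C (D i) (s i) (lam i) (t i) +
        C.m * C.m.factorial * ((C.m + 1) * Q i - C.m * (M i ^ 2 / W i)) := by
    intro i
    obtain ⟨hwi, -, -, -, -, -, hint⟩ := hein i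
    rw [hint]
    have hmem : ∀ᵐ z ∂(C.nu.restrict (S1 C)), z ∈ S1 C := ae_restrict_mem (S1_meas C hC)
    have i2 : Integrable (fun z => F2 (s i) (lam i) (t i) z * wt C (D i) (s i) (lam i) (t i) z)
        (C.nu.restrict (S1 C)) := by
      refine hwi.bdd_mul (c := (Λ * k i) ^ 2) (meas_F2 _ _ _).aestronglyMeasurable ?_
      filter_upwards [hmem] with z hz
      obtain ⟨-, -, -, -, -, h3, h4, -⟩ := hepo i z hz.1 (t i) (ht0 i)
      rw [Real.norm_of_nonneg h3]
      exact h4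
    have iv : Integrable (fun z => v i z ^ 2 * wt C (D i) (s i) (lam i) (t i) z)
        (C.nu.restrict (S1 C)) := by
      refine hwi.bdd_mul (c := b ^ 2) ((hvm i).pow_const 2).aestronglyMeasurable ?_
      filter_upwards [hmem] with z hz
      rw [Real.norm_eq_abs]
      exact habs2 i z hz.1
    have e1 : Iw C (D i) (s i) (lam i) (t i)
        (fun z => F2 (s i) (lam i) (t i) z / (2 * (D i : ℝ)) +
          (F1 (s i) (lam i) (t i) z / (2 * (D i : ℝ))) ^ 2) =
        Iw C (D i) (s i) (lam i) (t i) (F2 (s i) (lam i) (t i)) / (2 * (D i : ℝ)) + Q i := by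
      simp only [hQdef, Iw]
      rw [← integral_div, ← integral_add (i2.div_const _) iv]
      refine integral_congr_ae (Eventually.of_forall fun z => ?_)
      simp only [hv]
      ring
    have e2 : Iw C (D i) (s i) (lam i) (t i) (F1 (s i) (lam i) (t i)) = 2 * (D i : ℝ) * M i := by
      simp only [hMdef, Iw]
      rw [← integral_const_mul]
      refine integral_congr_ae (Eventually.of_forall fun z => ?_)
      simp only [hv]
      have h2 : (D i : ℝ) ≠ 0 := hD0 i
      field_simp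
    have e3 : Iw C (D i) (s i) (lam i) (t i) (fun z => F1 (s i) (lam i) (t i) z ^ 2) =
        (2 * (D i : ℝ)) ^ 2 * Q i := by
      simp only [hQdef, Iw]
      rw [← integral_const_mul]
      refine integral_congr_ae (Eventually.of_forall fun z => ?_)
      simp only [hv]
      have h2 : (D i : ℝ) ≠ 0 := hD0 i
      field_simp
    rw [e1, U2, e2, e3]
    change C.m * C.m.factorial * (Iw C (D i) (s i) (lam i) (t i) (F2 (s i) (lam i) (t i)) /
      (2 * (D i : ℝ)) + Q i) = C.m.factorial * W i * (C.m / (2 * (D i : ℝ)) *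
      (Iw C (D i) (s i) (lam i) (t i) (F2 (s i) (lam i) (t i)) / W i) -
      (C.m / (2 * (D i : ℝ))) ^ 2 * ((2 * (D i : ℝ)) ^ 2 * Q i / W i -
        (2 * (D i : ℝ) * M i / W i) ^ 2)) + C.m * C.m.factorial * ((C.m + 1) * Q i -
        C.m * (M i ^ 2 / W i))
    have h1 := (hWpos i).ne'
    have h2 : (D i : ℝ) ≠ 0 := hD0 i
    field_simp
    ring
  intro ε hε
  have hlim : Tendsto (fun i => C.m * C.m.factorial * ((C.m + 1) * Q i - C.m * (M i ^ 2 / W i)))
      atTop (𝓝 (Vm C g)) := by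
    unfold Vm
    exact ((hQl.const_mul _).sub (((hMl.pow 2).div hWl hI.ne').const_mul _)).const_mul _
  have hf : (0 : ℝ) < C.m.factorial := by exact_mod_cast Nat.factorial_pos _
  have h1 : ∀ᶠ i in atTop, C.m * C.m.factorial * ((C.m + 1) * Q i - C.m * (M i ^ 2 / W i)) <
      Vm C g + ε / 2 := hlim.eventually (gt_mem_nhds (by linarith))
  have h2 : ∀ᶠ i in atTop, W i < I + 1 := hWl.eventually (gt_mem_nhds (by linarith))
  have h3 := hU2 (ε / (2 * (C.m.factorial * (I + 1)))) (by positivity)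
  filter_upwards [h1, h2, h3] with i g1 g2 g3
  rw [hform i]
  have hWi := hWpos i
  have g4 : C.m.factorial * W i * U2 C (D i) (s i) (lam i) (t i) ≤ ε / 2 := by
    calc C.m.factorial * W i * U2 C (D i) (s i) (lam i) (t i)
        ≤ C.m.factorial * W i * (ε / (2 * (C.m.factorial * (I + 1)))) :=
          mul_le_mul_of_nonneg_left g3 (by positivity)
      _ ≤ C.m.factorial * (I + 1) * (ε / (2 * (C.m.factorial * (I + 1)))) := by
          gcongr
      _ = ε / 2 := by
          field_simp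
  linarith

end Pool.Agent.Helper32.KP
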