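import Pool.Agent.Helper93.KP.St

/-!
# Project KP, MODULE SGL: counting in one class
-/

set_option autoImplicit false

namespace Pool.Agent.Helper32.KP

open Finset Filter Topology Pool.Agent.Helper93.KP

private lemma cnt (A B D v : ℕ) (hD : 1 ≤ D) (hAB : A ≤ B) :
    |(((Ioc A B).filter (fun n => n ≡ v [MOD D])).card : ℝ) - ((B : ℝ) - A) / D| ≤ 1 := by
  have h := Nat.Ioc_filter_modEq_card A B (r := D) hD v
  have hD0 : (0 : ℚ) < D := by exact_mod_cast hD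
  have hAB' : (A : ℚ) ≤ B := by exact_mod_cast hAB
  set x : ℚ := ((B : ℚ) - v) / D with hx
  set y : ℚ := ((A : ℚ) - v) / D with hy
  have hxy : x - y = ((B : ℚ) - A) / D := by
    rw [hx, hy, ← sub_div]
    congr 1
    ring
  have hyx : y ≤ x := by
    have h1 : 0 ≤ x - y := by
      rw [hxy]
      exact div_nonneg (by linarith) hD0.le
    linarith
  have hfl : ⌊y⌋ ≤ ⌊x⌋ := Int.floor_le_floor hyx
  rw [max_eq_left (by omega)] at h
  have hq : |(((Ioc A B).filter (fun n => n ≡ v [MOD D])).card : ℚ) - ((B : ℚ) - A) / D| ≤ 1 := by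
    have h2 : (((Ioc A B).filter (fun n => n ≡ v [MOD D])).card : ℚ) = (⌊x⌋ : ℚ) - (⌊y⌋ : ℚ) := by
      have h3 : ((((Ioc A B).filter (fun n => n ≡ v [MOD D])).card : ℤ) : ℚ) =
          ((⌊x⌋ - ⌊y⌋ : ℤ) : ℚ) := by rw [h]
      push_cast at h3
      exact h3
    rw [h2, ← hxy, abs_le]
    have a1 := Int.floor_le x
    have a2 := Int.lt_floor_add_one x
    have a3 := Int.floor_le y
    have a4 := Int.lt_floor_add_one y
    constructor <;> linarith
  have hr := (Rat.cast_le (K := ℝ)).mpr hq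
  rw [Rat.cast_abs, Rat.cast_sub, Rat.cast_div, Rat.cast_sub, Rat.cast_natCast, Rat.cast_natCast,
    Rat.cast_natCast, Rat.cast_natCast, Rat.cast_one] at hr
  exact hr

private lemma class_iff (d q k ν : ℕ) (hν : ν < d) (hqd : Nat.Coprime q d)
    (hqk : Nat.Coprime q k) (hq : 1 ≤ q) :
    ∃ w : ℕ, ∀ n : ℕ, (n % d = ν ∧ (q : ℤ) ∣ gk n k) ↔ n ≡ w [MOD d * q] := by
  obtain ⟨u, v, huv⟩ := Nat.isCoprime_iff_coprime.mpr hqk.symm
  have hq0 : (q : ℤ) ≠ 0 := by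
    have : (1 : ℤ) ≤ q := by exact_mod_cast hq
    omega
  obtain ⟨w0, hw0⟩ := Int.eq_ofNat_of_zero_le (Int.emod_nonneg (u * ((k : ℤ) ^ 2 + 1)) hq0)
  have hw1 : ∀ n : ℕ, (q : ℤ) ∣ gk n k ↔ n ≡ w0 [MOD q] := by
    intro n
    have h1 : n ≡ w0 [MOD q] ↔ (q : ℤ) ∣ (n : ℤ) - u * ((k : ℤ) ^ 2 + 1) := by
      rw [← Int.natCast_modEq_iff, ← hw0]
      constructor
      · intro h
        have h2 : (n : ℤ) ≡ u * ((k : ℤ) ^ 2 + 1) [ZMOD q] := h.trans (Int.mod_modEq _ _)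
        exact (Int.modEq_iff_dvd.mp h2.symm)
      · intro h
        have h2 : (n : ℤ) ≡ u * ((k : ℤ) ^ 2 + 1) [ZMOD q] := (Int.modEq_iff_dvd.mpr h).symm
        exact h2.trans (Int.mod_modEq _ _).symm
    rw [h1]
    unfold gk
    constructor
    · rintro ⟨s, hs⟩
      exact ⟨u * s + v * n, by linear_combination u * hs - (n : ℤ) * huv⟩
    · rintro ⟨s, hs⟩
      exact ⟨(k : ℤ) * s - v * ((k : ℤ) ^ 2 + 1), by
        linear_combination (k : ℤ) * hs + ((k : ℤ) ^ 2 + 1) * huv⟩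
  have hco : Nat.Coprime d q := hqd.symm
  obtain ⟨w, hwd, hwq⟩ := Nat.chineseRemainder hco ν w0
  refine ⟨w, fun n => ?_⟩
  rw [hw1 n, ← Nat.modEq_and_modEq_iff_modEq_mul hco]
  have h2 : n % d = ν ↔ n ≡ ν [MOD d] := by
    unfold Nat.ModEq
    rw [Nat.mod_eq_of_lt hν]
  rw [h2]
  constructor
  · rintro ⟨h3, h4⟩
    exact ⟨h3.trans hwd.symm, h4.trans hwq.symm⟩
  · rintro ⟨h3, h4⟩
    exact ⟨h3.trans hwd, h4.trans hwq⟩

theorem hSGL : StSGL := by
  intro a d ν k q ha hd hν hk hka hq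
  have hAB : a ^ 2 ≤ 4 * a ^ 2 := by nlinarith
  have hlen : (((4 * a ^ 2 : ℕ) : ℝ) - ((a ^ 2 : ℕ) : ℝ)) = 3 * (a : ℝ) ^ 2 := by
    push_cast
    ring
  have hkn : ∀ n ∈ NN a, k < n := by
    intro n hn
    have h1 := (mem_Ioc.mp hn).1
    nlinarith
  refine ⟨?_, ?_, ?_⟩
  · have h := cnt (a ^ 2) (4 * a ^ 2) d ν hd hAB
    rw [hlen] at h
    have h2 : (NN a).filter (fun n => n % d = ν) =
        (Ioc (a ^ 2) (4 * a ^ 2)).filter (fun n => n ≡ ν [MOD d]) := by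
      unfold NN
      refine filter_congr fun n _ => ?_
      unfold Nat.ModEq
      rw [Nat.mod_eq_of_lt hν]
    rw [h2]
    exact h
  · intro hqd hqk
    obtain ⟨w, hw⟩ := class_iff d q k ν hν hqd hqk hq
    have h := cnt (a ^ 2) (4 * a ^ 2) (d * q) w (Nat.mul_pos hd hq) hAB
    rw [hlen, Nat.cast_mul] at h
    have h2 : (NN a).filter (fun n => n % d = ν ∧ q ∣ vk n k) =
        (Ioc (a ^ 2) (4 * a ^ 2)).filter (fun n => n ≡ w [MOD d * q]) := by
      refine filter_congr fun n hn => ?_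
      rw [dvd_vk n k q hk (hkn n hn)]
      exact hw n
    rw [h2]
    exact h
  · intro hnc n hn hdvd
    obtain ⟨p, hp, hpq, hpk⟩ := Nat.Prime.not_coprime_iff_dvd.mp hnc
    have h1 : p ∣ k * (n - k) - 1 := hpq.trans hdvd
    have h2 : p ∣ k * (n - k) := hpk.mul_right _
    have h3 : 1 ≤ k * (n - k) := Nat.mul_pos hk (by have := hkn n hn; omega)
    have h4 : p ∣ k * (n - k) - (k * (n - k) - 1) := Nat.dvd_sub h2 h1
    have h5 : k * (n - k) - (k * (n - k) - 1) = 1 := by omega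
    rw [h5] at h4
    exact hp.one_lt.ne' (Nat.dvd_one.mp h4)

end Pool.Agent.Helper32.KP
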